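import Pool.Agent.Helper61.FN.Goals

/-!
# FN-NRM (normalisation)
-/

set_option autoImplicit false

namespace Pool.Agent.Helper31.FN.NRM

open Finset Pool.Agent.Helper61.FN

theorem goalNRM : G_NRM := by
  intro F E J k _ _ _ _ _ _ _ _ m c d lam u ξ hm hd hlam hj hP
  obtain ⟨e₀, he₀⟩ := hP.u_ne
  obtain ⟨e₁, he₁⟩ : ∃ e, u e < 0 := by
    by_contra hcon
    push Not at hcon
    have h1 : ∀ e ∈ (univ : Finset E), 0 ≤ d e * (u e : F) := fun e _ ↦
      mul_nonneg (hd e).le (by exact_mod_cast hcon e)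
    have h2 := (sum_eq_zero_iff_of_nonneg h1).1 hP.sum e₀ (mem_univ e₀)
    rcases mul_eq_zero.1 h2 with h3 | h3
    · exact (hd e₀).ne' h3
    · exact he₀ (by exact_mod_cast h3)
  obtain ⟨j₁, hj₁⟩ := hj e₁
  have hJ : Nonempty J := ⟨j₁⟩
  obtain ⟨j₀, hj₀⟩ := Finite.exists_max fun j ↦ gr (m j) u
  have hg1 : gr (m j₁) u = -u e₁ := by
    unfold gr
    rw [hj₁, sum_eq_single e₁]
    · rw [Pi.single_eq_same, neg_one_mul]
    · intro b _ hb
      rw [Pi.single_eq_of_ne hb, zero_mul]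
    · intro h
      exact (h (mem_univ e₁)).elim
  have hM : 0 < gr (m j₀) u := by
    have := hj₀ j₁
    omega
  obtain ⟨M, hMd⟩ : ∃ M, M = gr (m j₀) u := ⟨_, rfl⟩
  have hgv : ∀ j, gr (m j) (fun e ↦ u e + M) = gr (m j) u - M := by
    intro j
    have h1 := hm j
    unfold gr
    simp only [mul_add, sum_add_distrib, ← sum_mul]
    rw [h1]
    ring
  have hgv2 : ∀ j, M + gr (m j) (fun e ↦ u e + M) = 0 + gr (m j) u := by
    intro j
    rw [hgv]
    ring
  refine ⟨fun e ↦ u e + M, M, ⟨hP.ne, hlam, by rw [hMd]; exact hM, ?_, ⟨j₀, ?_⟩, ?_, ?_⟩⟩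
  · intro j
    rw [hgv, hMd]
    have := hj₀ j
    omega
  · rw [hgv, hMd, sub_self]
  · have h1 := hP.sum
    simp only [Int.cast_add, mul_add, sum_add_distrib]
    rw [h1, zero_add, ← sum_mul, mul_comm]
  · intro w g hg hjg
    have h1 := hP.lead w g hg fun j hj' ↦ by
      rw [← hgv2]
      exact hjg j hj'
    rw [← h1]
    refine sum_congr rfl fun j _ ↦ ?_
    rw [hgv2]

end Pool.Agent.Helper31.FN.NRM
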